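import Pool.Agent.Q74.PD.Stm2

/-! # Project PD, jobs Daw, Vis, Lay -/

set_option autoImplicit false

namespace Pool.Agent.Q285.PD

open Finset Filter Topology
open Pool.Agent.H499R2.ND Pool.Agent.H320R2.PD Pool.Agent.Y856.PD Pool.Agent.Q74.PD

theorem mem_Wn {d : ℤ} {A : ℝ} {a : ℤ} : a ∈ Wn d A ↔ (A ≤ a ∧ (a : ℝ) < 2 * A) ∧ a ∉ Far d A := by
  classical
  unfold Wn
  rw [mem_filter, mem_Ico, Int.ceil_le, Int.lt_ceil]

theorem daw (hD : S_Dav) (hF : S_Far) (hm : S_Dlm) : S_Daw := by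
  classical
  intro d hd hd3 n ε hε
  obtain ⟨A₁, hA₁⟩ := hD d hd3 n (ε / 2) (by positivity)
  obtain ⟨c, A₂, hc, hA₂⟩ := hF d hd
  have hlim : Tendsto (fun A : ℝ => (3 : ℝ) ^ n * A ^ (-c)) atTop (𝓝 ((3 : ℝ) ^ n * 0)) :=
    (tendsto_rpow_neg_atTop hc).const_mul _
  rw [mul_zero] at hlim
  have hε2 : (0 : ℝ) < ε / 2 := by positivity
  obtain ⟨A₃, hA₃⟩ := eventually_atTop.1 (hlim.eventually (ge_mem_nhds hε2))
  refine ⟨max 1 (max A₁ (max A₂ A₃)), fun A hA => ?_⟩
  have hA1 : 1 ≤ A := (le_max_left _ _).trans hA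
  have hA11 : A₁ ≤ A := (le_max_left _ _).trans ((le_max_right _ _).trans hA)
  have hA22 : A₂ ≤ A := (le_max_left _ _).trans ((le_max_right _ _).trans ((le_max_right _ _).trans hA))
  have hA33 : A₃ ≤ A := (le_max_right _ _).trans ((le_max_right _ _).trans ((le_max_right _ _).trans hA))
  have hA0 : 0 < A := by linarith
  have h1 := hA₁ A hA11
  have h2 := hA₂ A hA22
  have h3 := hA₃ A hA33
  set Fs := (Ico ⌈A⌉ ⌈2 * A⌉).filter (fun a => a ∈ Far d A) with hFs
  have hcard : ((Fs.card : ℕ) : ℝ) ≤ A ^ (1 - c) := by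
    have e : {a : ℤ | A ≤ a ∧ (a : ℝ) < 2 * A ∧ a ∈ Far d A} = (Fs : Set ℤ) := by
      ext a
      rw [hFs, coe_filter]
      simp only [Set.mem_ofPred_eq, mem_Ico, Int.ceil_le, Int.lt_ceil]
      tauto
    rw [e, Set.ncard_coe_finset] at h2
    exact h2
  have hsplit : ∑ a ∈ Wn d A, Dn d n a / a + ∑ a ∈ Fs, Dn d n a / a =
      ∑ a ∈ Ico ⌈A⌉ ⌈2 * A⌉, Dn d n a / a := by
    rw [add_comm]
    unfold Wn
    rw [hFs]
    exact sum_filter_add_sum_filter_not _ _ _
  have hDn : ∀ a : ℤ, 0 ≤ Dn d n a ∧ Dn d n a ≤ 3 ^ n := fun a => by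
    obtain ⟨h4, h5, h6, -⟩ := (hm d hd3 n).1 0 a
    exact ⟨h4.trans h5, h6⟩
  have hpos : ∀ a ∈ Fs, A ≤ (a : ℝ) := by
    intro a ha
    rw [hFs, mem_filter, mem_Ico, Int.ceil_le] at ha
    exact ha.1.1
  have h0 : 0 ≤ ∑ a ∈ Fs, Dn d n a / a := by
    refine sum_nonneg fun a ha => ?_
    have := hpos a ha
    exact div_nonneg (hDn a).1 (by linarith)
  have h4 : ∑ a ∈ Fs, Dn d n a / a ≤ ε / 2 := by
    calc ∑ a ∈ Fs, Dn d n a / a ≤ ∑ a ∈ Fs, (3 : ℝ) ^ n / A := by
          refine sum_le_sum fun a ha => ?_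
          exact div_le_div₀ (by positivity) (hDn a).2 hA0 (hpos a ha)
      _ = Fs.card * ((3 : ℝ) ^ n / A) := by rw [sum_const, nsmul_eq_mul]
      _ ≤ A ^ (1 - c) * ((3 : ℝ) ^ n / A) := mul_le_mul_of_nonneg_right hcard (by positivity)
      _ = (3 : ℝ) ^ n * A ^ (-c) := by
          rw [Real.rpow_sub hA0, Real.rpow_one, Real.rpow_neg hA0.le]
          field_simp
      _ ≤ ε / 2 := h3
  rw [abs_le] at h1 ⊢
  constructor <;> linarith

theorem Td_nonpos {d : ℤ} (hd : d < 0) {y : ℤ} (hy : y ≤ 0) : Td d y ≤ 0 := by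
  unfold Td
  split_ifs <;> omega

theorem Td_pos {d : ℤ} (hd : 0 < d) {y : ℤ} (hy : 1 ≤ y) : 1 ≤ Td d y := by
  unfold Td
  split_ifs <;> omega

theorem vis : S_Vis := by
  classical
  intro d hd
  refine ⟨Real.exp 1, fun A hA x hx => ?_⟩
  have hA0 : 0 < A := lt_of_lt_of_le (Real.exp_pos 1) hA
  have hlog : 1 ≤ Real.log A := by
    rw [Real.le_log_iff_exp_le hA0]
    exact hA
  have hA1 : 1 ≤ A := by
    have := Real.add_one_le_exp (1 : ℝ)
    linarith
  set W := (Wn d A).filter (fun a => x ∈ Pr d a) with hW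
  have hV : Vs d (Wn d A) x = W.card := by
    unfold Vs
    rfl
  rw [hV]
  -- first times
  have hex : ∀ a ∈ W, ∃ j : ℕ, (Td d)^[j] x = a := fun a ha => (mem_filter.1 ha).2
  have hmin : ∀ a : ℤ, ∃ t : ℕ, a ∈ W → (Td d)^[t] x = a := by
    intro a
    by_cases h : a ∈ W
    · obtain ⟨j, hj⟩ := hex a h
      exact ⟨j, fun _ => hj⟩
    · exact ⟨0, fun h' => absurd h' h⟩
  choose t ht using hmin
  have hWr : ∀ a ∈ W, (A ≤ a ∧ (a : ℝ) < 2 * A) ∧ a ∉ Far d A := fun a ha =>
    mem_Wn.1 (mem_filter.1 ha).1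
  have hinj : Set.InjOn t (W : Set ℤ) := by
    intro a ha b hb hab
    rw [← ht a ha, ← ht b hb, hab]
  set I := W.image t with hI
  have hIc : I.card = W.card := card_image_of_injOn hinj
  rw [← hIc]
  have hgap : ∀ (u : ℤ) (j : ℕ), 1 ≤ u → (u : ℝ) ≤ 2 * A → ∀ a ∈ W, (Td d)^[j] u = a → (j : ℝ) < Real.log A / 20 := by
    intro u j h1 h2 a ha h3
    by_contra h
    exact (hWr a ha).2 ⟨u, h1, h2, j, not_lt.1 h, h3⟩
  have hpos : ∀ a ∈ W, 1 ≤ a := by
    intro a ha
    have h1 := (hWr a ha).1.1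
    have h2 : (1 : ℝ) ≤ a := by linarith
    exact_mod_cast h2
  have hgap2 : ∀ i ∈ I, ∀ j ∈ I, i ≤ j → ((j - i : ℕ) : ℝ) < Real.log A / 20 := by
    intro i hi j hj hij
    rw [hI, mem_image] at hi hj
    obtain ⟨a, ha, rfl⟩ := hi
    obtain ⟨b, hb, rfl⟩ := hj
    refine hgap a (t b - t a) (hpos a ha) (hWr a ha).1.2.le b hb ?_
    have h1 : (Td d)^[t b - t a] ((Td d)^[t a] x) = b := by
      rw [← Function.iterate_add_apply, Nat.sub_add_cancel hij]
      exact ht b hb
    rw [ht a ha] at h1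
    exact h1
  constructor
  · rcases I.eq_empty_or_nonempty with h | h
    · rw [h, card_empty]
      push_cast
      linarith
    · have h1 : I ⊆ Icc (I.min' h) (I.max' h) := fun i hi => mem_Icc.2 ⟨I.min'_le i hi, I.le_max' i hi⟩
      have h2 := card_le_card h1
      rw [Nat.card_Icc] at h2
      have h3 : I.min' h ≤ I.max' h := I.min'_le _ (I.max'_mem h)
      have h4 := hgap2 _ (I.min'_mem h) _ (I.max'_mem h) h3
      have h5 : (I.card : ℝ) ≤ ((I.max' h - I.min' h : ℕ) : ℝ) + 1 := by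
        have : I.card ≤ (I.max' h - I.min' h) + 1 := by omega
        exact_mod_cast this
      linarith
  · rintro ⟨i, hi, hi2⟩
    set u := (Td d)^[i] x with hu
    -- the sign
    have hsign : ∀ a ∈ W, i < t a → 1 ≤ u := by
      intro a ha hia
      by_contra hu0
      have hu0 : u ≤ 0 := by omega
      rcases lt_trichotomy d 0 with hd0 | hd0 | hd0
      · have h1 : ∀ j : ℕ, (Td d)^[j] u ≤ 0 := by
          intro j
          induction j with
          | zero => exact hu0
          | succ j ih =>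
            rw [Function.iterate_succ_apply']
            exact Td_nonpos hd0 ih
        have h2 := h1 (t a - i)
        rw [hu, ← Function.iterate_add_apply, Nat.sub_add_cancel hia.le, ht a ha] at h2
        have := hpos a ha
        omega
      · rw [hd0] at hd
        revert hd
        decide
      · have h1 : ∀ j : ℕ, 1 ≤ (Td d)^[j] x := by
          intro j
          induction j with
          | zero => exact hx
          | succ j ih =>
            rw [Function.iterate_succ_apply']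
            exact Td_pos hd0 ih
        have := h1 i
        omega
    have htime : ∀ j ∈ I, j < ⌊Real.log A⌋₊ + 1 := by
      intro j hj
      rw [hI, mem_image] at hj
      obtain ⟨a, ha, rfl⟩ := hj
      rw [Nat.lt_succ_iff]
      apply Nat.le_floor
      by_cases h : t a ≤ i
      · have : ((t a : ℕ) : ℝ) ≤ i := by exact_mod_cast h
        linarith
      · have h1 : i < t a := not_le.1 h
        have h2 := hgap u (t a - i) (hsign a ha h1) hi2 a ha (by
          rw [hu, ← Function.iterate_add_apply, Nat.sub_add_cancel h1.le, ht a ha])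
        rw [Nat.cast_sub h1.le] at h2
        linarith
    have hwin : ∀ j ∈ I, A ≤ (((Td d)^[j] x : ℤ) : ℝ) ∧ (((Td d)^[j] x : ℤ) : ℝ) < 2 * A := by
      intro j hj
      rw [hI, mem_image] at hj
      obtain ⟨a, ha, rfl⟩ := hj
      rw [ht a ha]
      exact (hWr a ha).1
    constructor
    · apply card_le_card
      intro j hj
      rw [mem_filter, mem_range]
      exact ⟨htime j hj, hwin j hj⟩
    · intro L
      rcases I.eq_empty_or_nonempty with h | h
      · rw [h, card_empty]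
        exact Nat.zero_le _
      · set m := I.min' h with hm
        have hmI : m ∈ I := I.min'_mem h
        have hml : ∀ j ∈ I, m ≤ j := fun j hj => I.min'_le j hj
        have h1 := card_filter_add_card_filter_not (s := I) (fun j => j < m + L)
        have h2 : (I.filter fun j => j < m + L).card ≤ L := by
          have h3 : (I.filter fun j => j < m + L) ⊆ Ico m (m + L) := by
            intro j hj
            rw [mem_filter] at hj
            exact mem_Ico.2 ⟨hml j hj.1, hj.2⟩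
          have h4 := card_le_card h3
          rw [Nat.card_Ico] at h4
          omega
        have h3 : (I.filter fun j => ¬ j < m + L).card ≤
            (((range (⌊Real.log A⌋₊ + 1)) ×ˢ (range (⌊Real.log A⌋₊ + 1))).filter (fun p : ℕ × ℕ =>
      p.1 + p.2 ≤ ⌊Real.log A⌋₊ ∧ L ≤ p.2 ∧ A ≤ ((Td d)^[p.1] x : ℤ) ∧ (((Td d)^[p.1] x : ℤ) : ℝ) < 2 * A ∧
      A ≤ ((Td d)^[p.1 + p.2] x : ℤ) ∧ (((Td d)^[p.1 + p.2] x : ℤ) : ℝ) < 2 * A)).card := by
          apply card_le_card_of_injOn (fun j => (m, j - m))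
          · intro j hj
            rw [mem_coe, mem_filter] at hj
            have h4 := htime j hj.1
            have h5 := hml j hj.1
            have h6 := hj.2
            have h7 := hwin j hj.1
            have h8 := hwin m hmI
            rw [mem_coe, mem_filter, mem_product, mem_range, mem_range]
            have e : m + (j - m) = j := by omega
            refine ⟨⟨by show m < _; omega, by show j - m < _; omega⟩, ?_, ?_, h8.1, h8.2, ?_, ?_⟩
            · show m + (j - m) ≤ _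
              omega
            · show L ≤ j - m
              omega
            · show A ≤ (((Td d)^[m + (j - m)] x : ℤ) : ℝ)
              rw [e]
              exact h7.1
            · show (((Td d)^[m + (j - m)] x : ℤ) : ℝ) < 2 * A
              rw [e]
              exact h7.2
          · intro j hj j' hj' hjj
            rw [mem_coe, mem_filter] at hj hj'
            have h5 := hml j hj.1
            have h6 := hml j' hj'.1
            have h7 := congrArg Prod.snd hjj
            have h8 : j - m = j' - m := h7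
            omega
        omega

theorem mem_Pr_iff {d a x : ℤ} (h : x ≠ a) : x ∈ Pr d a ↔ Td d x ∈ Pr d a := by
  constructor
  · rintro ⟨j, hj⟩
    rcases j with _ | j
    · exact absurd hj h
    · exact ⟨j, hj⟩
  · rintro ⟨j, hj⟩
    exact ⟨j + 1, hj⟩

theorem dsy_spec {d : ℤ} (hd : Odd d) (hd3 : IsCoprime d 3) {y : ℝ} (hy : |(d : ℝ)| ≤ y) {S : Set ℤ}
    (hS : EInv y d S) : Tendsto (fun X : ℝ => G S X / X) atTop (𝓝 (dsy S)) := by
  obtain ⟨l, hl⟩ := density_existsA hd hd3 hy hS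
  have e : dsy S = l := hl.limUnder_eq
  rw [e]
  exact hl

open Classical in
theorem layers {d : ℤ} {B : Finset ℤ} {M : ℕ} (s : Finset ℤ) (f : ℤ → ℝ) (h : ∀ x ∈ s, Vs d B x ≤ M) :
    ∑ a ∈ B, ∑ x ∈ s.filter (fun x => x ∈ Pr d a), f x =
      ∑ l ∈ Icc 1 M, ∑ x ∈ s.filter (fun x => x ∈ Ly d B l), f x := by
  have e1 : ∀ a ∈ B, ∑ x ∈ s.filter (fun x => x ∈ Pr d a), f x = ∑ x ∈ s, if x ∈ Pr d a then f x else 0 :=
    fun a _ => sum_filter _ _
  have e2 : ∀ l ∈ Icc 1 M, ∑ x ∈ s.filter (fun x => x ∈ Ly d B l), f x =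
      ∑ x ∈ s, if x ∈ Ly d B l then f x else 0 := fun l _ => sum_filter _ _
  rw [sum_congr rfl e1, sum_congr rfl e2, sum_comm, sum_comm (s := Icc 1 M)]
  refine sum_congr rfl fun x hx => ?_
  rw [← sum_filter, ← sum_filter, sum_const, sum_const]
  congr 1
  have h1 : (Icc 1 M).filter (fun l => x ∈ Ly d B l) = Icc 1 (Vs d B x) := by
    ext l
    rw [mem_filter, mem_Icc, mem_Icc]
    have h2 := h x hx
    constructor
    · rintro ⟨⟨h3, -⟩, h4⟩
      exact ⟨h3, h4⟩
    · rintro ⟨h3, h4⟩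
      exact ⟨⟨h3, h4.trans h2⟩, h4⟩
  rw [h1, Nat.card_Icc, Nat.add_sub_cancel]
  rfl

theorem lay : S_Lay := by
  classical
  intro d hd hd3 A hA hdA B hB
  have hP : ∀ a ∈ B, ∀ x : ℤ, 2 * A < (x : ℝ) → (x ∈ Pr d a ↔ Td d x ∈ Pr d a) := by
    intro a ha x hx
    apply mem_Pr_iff
    rintro rfl
    exact absurd (hB x ha) (not_le.2 hx)
  have hPr : ∀ a ∈ B, EInv (2 * A) d (Pr d a) := fun a ha x hx => hP a ha x hx
  have hLy : ∀ l : ℕ, EInv (2 * A) d (Ly d B l) := by
    intro l x hx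
    have e : Vs d B x = Vs d B (Td d x) := by
      unfold Vs
      rw [filter_congr fun a ha => hP a ha x hx]
    show l ≤ Vs d B x ↔ l ≤ Vs d B (Td d x)
    rw [e]
  refine ⟨fun l => ⟨hLy l, dsy_spec hd hd3 hdA (hLy l)⟩, fun a ha => dsy_spec hd hd3 hdA (hPr a ha), fun M hM => ⟨?_, ?_⟩⟩
  · have h1 : Tendsto (fun X : ℝ => ∑ a ∈ B, G (Pr d a) X / X) atTop (𝓝 (∑ a ∈ B, dsy (Pr d a))) :=
      tendsto_finsetSum _ fun a ha => dsy_spec hd hd3 hdA (hPr a ha)
    have h2 : Tendsto (fun X : ℝ => ∑ l ∈ Icc 1 M, G (Ly d B l) X / X) atTop (𝓝 (∑ l ∈ Icc 1 M, dsy (Ly d B l))) :=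
      tendsto_finsetSum _ fun l _ => dsy_spec hd hd3 hdA (hLy l)
    refine tendsto_nhds_unique h1 (h2.congr fun X => ?_)
    rw [← sum_div, ← sum_div]
    congr 1
    have h3 := layers (d := d) (B := B) (M := M) (Ico 1 ⌈X⌉) (fun _ => (1 : ℝ)) fun x hx => hM x (mem_Ico.1 hx).1
    simp only [sum_const, nsmul_eq_mul, mul_one] at h3
    unfold G pos
    exact h3.symm
  · unfold hm
    rw [← mul_sum, ← mul_sum]
    congr 1
    have h3 := layers (d := d) (B := B) (M := M) ((Ico ⌈Ul A⌉ ⌈Ur A⌉).filter fun x => Odd x) (fun x => 1 / (x : ℝ)) fun x hx => by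
      apply hM
      rw [mem_filter, mem_Ico, Int.ceil_le] at hx
      have h4 : 0 < Ul A := by
        unfold Ul
        positivity
      have h5 : (0 : ℝ) < x := lt_of_lt_of_le h4 hx.1.1
      have h6 : (0 : ℤ) < x := by exact_mod_cast h5
      omega
    have e : ∀ S : Set ℤ, ((Ico ⌈Ul A⌉ ⌈Ur A⌉).filter fun x => Odd x).filter (fun x => x ∈ S) =
        cls S (Ul A) (Ur A) 0 1 0 := by
      intro S
      ext x
      rw [mem_cls, mem_filter, mem_filter, mem_Ico, Int.ceil_le, Int.lt_ceil]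
      simp
      tauto
    unfold hs
    simp only [e] at h3
    exact h3

end Pool.Agent.Q285.PD
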