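import Pool.Agent.Q74.PD.Stm7

/-! # Project PD, job Msq: the second moment tends to infinity -/

set_option autoImplicit false

namespace Q285.PD

open Finset Filter Topology MeasureTheory
open Pool.Agent.Q74.PD

/-- the bounded test function -/
noncomputable def phi (K : ℕ) : BoundedContinuousFunction (ℤ_[3] × ℝ) ℝ :=
  BoundedContinuousFunction.ofNormedAddCommGroup (fun q : ℤ_[3] × ℝ => min (K : ℝ) (max 0 q.2 ^ 2)) (by fun_prop) K (by
    intro q
    have h0 : 0 ≤ min (K : ℝ) (max 0 q.2 ^ 2) := le_min (Nat.cast_nonneg K) (sq_nonneg _)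
    rw [Real.norm_of_nonneg h0]
    exact min_le_left _ _)

lemma phi_apply (K : ℕ) (q : ℤ_[3] × ℝ) : phi K q = min (K : ℝ) (max 0 q.2 ^ 2) := rfl

theorem msq : S_Msq := by
  intro f D hDm hD0 _ hns hf _ hlim
  have hc0 : 0 < c0 := by
    unfold c0
    have : 0 < Real.log (4 / 3) := Real.log_pos (by norm_num)
    positivity
  have hmeas : ∀ K : ℕ, Measurable fun z => min (K : ℝ) (max 0 (c0 * D z) ^ 2) := fun K => by fun_prop
  have hmeas2 : Measurable fun z => max 0 (c0 * D z) ^ 2 := by fun_prop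
  have hnn : ∀ (K : ℕ) (z : ℤ_[3]), 0 ≤ min (K : ℝ) (max 0 (c0 * D z) ^ 2) := fun K z => le_min (Nat.cast_nonneg K) (sq_nonneg _)
  have htop : ∫⁻ z, ENNReal.ofReal (max 0 (c0 * D z) ^ 2) ∂haar3 = ⊤ := by
    by_contra hne
    apply hns
    have h1 : Integrable (fun z => max 0 (c0 * D z) ^ 2) haar3 := by
      refine ⟨hmeas2.aestronglyMeasurable, ?_⟩
      rw [hasFiniteIntegral_iff_ofReal (Eventually.of_forall fun z => sq_nonneg _)]
      exact lt_top_iff_ne_top.2 hne
    have h2 : (fun z => D z ^ 2) = fun z => (1 / c0 ^ 2) * max 0 (c0 * D z) ^ 2 := by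
      funext z
      rw [max_eq_right (mul_nonneg hc0.le (hD0 z))]
      field_simp
    rw [h2]
    exact h1.const_mul _
  have hmono : Tendsto (fun K : ℕ => ∫⁻ z, ENNReal.ofReal (min (K : ℝ) (max 0 (c0 * D z) ^ 2)) ∂haar3) atTop
      (𝓝 (∫⁻ z, ENNReal.ofReal (max 0 (c0 * D z) ^ 2) ∂haar3)) := by
    refine lintegral_tendsto_of_tendsto_of_monotone (fun K => (hmeas K).ennreal_ofReal.aemeasurable) ?_ ?_
    · refine Eventually.of_forall fun z => ?_
      intro K K' h
      exact ENNReal.ofReal_le_ofReal (min_le_min_right _ (by exact_mod_cast h))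
    · refine Eventually.of_forall fun z => ?_
      refine (tendsto_const_nhds (x := ENNReal.ofReal (max 0 (c0 * D z) ^ 2))).congr' ?_
      obtain ⟨K₀, hK₀⟩ := exists_nat_ge (max 0 (c0 * D z) ^ 2)
      filter_upwards [eventually_ge_atTop K₀] with K hK
      rw [min_eq_right (hK₀.trans (by exact_mod_cast hK))]
  rw [htop] at hmono
  rw [tendsto_atTop]
  intro M
  obtain ⟨K, hK⟩ : ∃ K : ℕ, ENNReal.ofReal (max M 0) < ∫⁻ z, ENNReal.ofReal (min (K : ℝ) (max 0 (c0 * D z) ^ 2)) ∂haar3 :=
    (hmono.eventually (lt_mem_nhds ENNReal.ofReal_lt_top)).exists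
  have hint : Integrable (fun z => min (K : ℝ) (max 0 (c0 * D z) ^ 2)) haar3 :=
    Integrable.of_bound (hmeas K).aestronglyMeasurable K (Eventually.of_forall fun z => by
      rw [Real.norm_of_nonneg (hnn K z)]
      exact min_le_left _ _)
  have hK' : M < ∫ z, min (K : ℝ) (max 0 (c0 * D z) ^ 2) ∂haar3 := by
    rw [← ofReal_integral_eq_lintegral_ofReal hint (Eventually.of_forall (hnn K))] at hK
    have h1 := (ENNReal.ofReal_lt_ofReal_iff_of_nonneg (le_max_right _ _)).1 hK
    exact (le_max_left _ _).trans_lt h1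
  have h2 := hlim (phi K)
  simp only [phi_apply] at h2
  have h3 := h2.eventually (lt_mem_nhds hK')
  filter_upwards [h3, eventually_gt_atTop 0] with N hN hN0
  refine hN.le.trans ?_
  have hN1 : (0 : ℝ) < N := by exact_mod_cast hN0
  refine div_le_div_of_nonneg_right (sum_le_sum fun a _ => ?_) hN1.le
  rw [max_eq_right (hf a)]
  exact min_le_right _ _

end Q285.PD
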