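import Pool.Agent.Q74.PD.Stm7

/-! # Project PD, job Nsq: the density is not square integrable -/

set_option autoImplicit false

namespace Q285.PD

open Finset Filter Topology MeasureTheory
open Pool.Agent.Q74.PD

lemma norm_unit {b : ℤ} (hb : ¬ (3 : ℤ) ∣ b) : ‖(b : ℤ_[3])‖ = 1 := by
  have h1 : ¬ ‖(b : ℤ_[3])‖ < 1 := fun h => hb (by exact_mod_cast (PadicInt.norm_int_lt_one_iff_dvd b).1 h)
  exact le_antisymm (PadicInt.norm_le_one _) (not_lt.1 h1)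

lemma cz_unit {n : ℕ} (hn : 1 ≤ n) {b : ℤ} (hb : ¬ (3 : ℤ) ∣ b) {z : ℤ_[3]} (hz : z ∈ Cz n b) : ‖z‖ = 1 := by
  have h1 : ‖z - (b : ℤ_[3])‖ < 1 := by
    refine lt_of_le_of_lt hz ?_
    have h2 : (3 : ℝ) ^ (-(n : ℤ)) = ((3 : ℝ) ^ n)⁻¹ := by rw [zpow_neg, zpow_natCast]
    rw [h2]
    refine inv_lt_one_of_one_lt₀ (one_lt_pow₀ (by norm_num) (by omega))
  have h3 := norm_unit hb
  have h4 : ‖z‖ = ‖(b : ℤ_[3])‖ := by
    have h5 : z = (z - b) + b := by ring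
    rw [h5]
    rw [PadicInt.norm_add_eq_max_of_ne (by rw [h3]; exact h1.ne), max_eq_right (by rw [h3]; exact h1.le)]
  rw [h4, h3]

lemma cz_disj (n : ℕ) {a b : ℕ} (ha : a < 3 ^ n) (hb : b < 3 ^ n) (hab : a ≠ b) : Disjoint (Cz n (a : ℤ)) (Cz n (b : ℤ)) := by
  rw [Set.disjoint_left]
  intro z hza hzb
  apply hab
  have h1 : ‖(((a : ℤ) - (b : ℤ) : ℤ) : ℤ_[3])‖ ≤ (3 : ℝ) ^ (-(n : ℤ)) := by
    have h2 : (((a : ℤ) - (b : ℤ) : ℤ) : ℤ_[3]) = (z - ((b : ℤ) : ℤ_[3])) - (z - ((a : ℤ) : ℤ_[3])) := by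
      push_cast
      ring
    rw [h2, sub_eq_add_neg (z - ((b : ℤ) : ℤ_[3]))]
    refine (PadicInt.nonarchimedean _ _).trans (max_le hzb ?_)
    rw [norm_neg]
    exact hza
  have h3 : ((3 ^ n : ℕ) : ℤ) ∣ (a : ℤ) - b := by
    have h4 := (PadicInt.norm_int_le_pow_iff_dvd (p := 3) (k := (a : ℤ) - b) (n := n)).1 (by exact_mod_cast h1)
    exact_mod_cast h4
  have h5 : (a : ℤ) ≡ b [ZMOD ((3 ^ n : ℕ) : ℤ)] := (Int.modEq_iff_dvd.2 (by
    rw [← neg_sub, dvd_neg]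
    exact h3))
  have h6 : a ≡ b [MOD 3 ^ n] := Int.natCast_modEq_iff.1 h5
  exact Nat.ModEq.eq_of_lt_of_lt h6 ha hb

theorem nsq (hH : S_Haa) (hs : S_Sqg) : S_Nsq := by
  intro d hd D hDm hD0 hDi hDn c hc hcD hsq
  obtain ⟨hprob, hcz, _, _⟩ := hH
  have hreal := fun n b => (hcz n b).2
  have hmz := fun n b => (hcz n b).1
  -- the lower bound
  have hlow : ∀ n : ℕ, 1 ≤ n → ∀ b : ℤ, ¬ (3 : ℤ) ∣ b → c ≤ Dn d n b := by
    intro n hn b hb
    have h1 : c * haar3.real (Cz n b) ≤ ∫ z in Cz n b, D z ∂haar3 := by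
      have h2 : ∫ z in Cz n b, c ∂haar3 = c * haar3.real (Cz n b) := by
        rw [setIntegral_const, smul_eq_mul, mul_comm]
      rw [← h2]
      refine setIntegral_mono_on_ae (integrable_const c).integrableOn hDi.integrableOn (hmz n b) ?_
      filter_upwards [hcD] with z hz hzb
      exact hz (cz_unit hn hb hzb)
    rw [hreal, hDn] at h1
    have h3 : (0 : ℝ) < 3 ^ n := by positivity
    rw [mul_one_div] at h1
    exact (div_le_div_iff_of_pos_right h3).1 h1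
  -- the upper bound
  have hup : ∀ (n : ℕ) (b : ℤ), Dn d n b ^ 2 ≤ 3 ^ n * ∫ z in Cz n b, D z ^ 2 ∂haar3 := by
    intro n b
    have h3 : (0 : ℝ) < 3 ^ n := by positivity
    have h1 : 0 ≤ ∫ z in Cz n b, (D z - Dn d n b) ^ 2 ∂haar3 := integral_nonneg fun z => sq_nonneg _
    have h2 : ∫ z in Cz n b, (D z - Dn d n b) ^ 2 ∂haar3 = ∫ z in Cz n b, D z ^ 2 ∂haar3 - 2 * Dn d n b * ∫ z in Cz n b, D z ∂haar3 +
        Dn d n b ^ 2 * haar3.real (Cz n b) := by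
      have e1 : (fun z => (D z - Dn d n b) ^ 2) = fun z => D z ^ 2 - 2 * Dn d n b * D z + Dn d n b ^ 2 := by
        funext z
        ring
      have i1 : Integrable (fun z => D z ^ 2) (haar3.restrict (Cz n b)) := hsq.restrict
      have i2 : Integrable (fun z => 2 * Dn d n b * D z) (haar3.restrict (Cz n b)) := (hDi.const_mul _).restrict
      have i3 : Integrable (fun z => D z ^ 2 - 2 * Dn d n b * D z) (haar3.restrict (Cz n b)) := i1.sub i2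
      have i4 : Integrable (fun _ : ℤ_[3] => Dn d n b ^ 2) (haar3.restrict (Cz n b)) := integrable_const _
      rw [e1, integral_add i3 i4, integral_sub i1 i2, integral_const_mul, setIntegral_const, smul_eq_mul, mul_comm (haar3.real (Cz n b))]
    rw [h2, hDn, hreal] at h1
    have h4 : 3 ^ n * (∫ z in Cz n b, D z ^ 2 ∂haar3 - 2 * Dn d n b * (Dn d n b / 3 ^ n) + Dn d n b ^ 2 * (1 / 3 ^ n)) =
        3 ^ n * (∫ z in Cz n b, D z ^ 2 ∂haar3) - Dn d n b ^ 2 := by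
      field_simp
      ring
    have h5 := mul_nonneg h3.le h1
    rw [h4] at h5
    linarith
  have hsum : ∀ n : ℕ, (∑ b ∈ range (3 ^ n), Dn d n b ^ 2) / 3 ^ n ≤ ∫ z, D z ^ 2 ∂haar3 := by
    intro n
    have h3 : (0 : ℝ) < 3 ^ n := by positivity
    rw [div_le_iff₀ h3]
    have h1 : ∑ b ∈ range (3 ^ n), Dn d n b ^ 2 ≤ ∑ b ∈ range (3 ^ n), 3 ^ n * ∫ z in Cz n (b : ℤ), D z ^ 2 ∂haar3 :=
      sum_le_sum fun b _ => hup n b
    rw [← mul_sum] at h1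
    have h2 : ∑ b ∈ range (3 ^ n), ∫ z in Cz n (b : ℤ), D z ^ 2 ∂haar3 = ∫ z in ⋃ b ∈ range (3 ^ n), Cz n ((b : ℕ) : ℤ), D z ^ 2 ∂haar3 := by
      refine (integral_biUnion_finset (μ := haar3) (f := fun z => D z ^ 2) (range (3 ^ n)) (s := fun b : ℕ => Cz n ((b : ℕ) : ℤ)) (fun b _ => hmz n (b : ℤ)) ?_
        (fun b _ => hsq.integrableOn)).symm
      intro a ha b hb hab
      exact cz_disj n (mem_range.1 (mem_coe.1 ha)) (mem_range.1 (mem_coe.1 hb)) hab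
    have h4 : ∫ z in ⋃ b ∈ range (3 ^ n), Cz n ((b : ℕ) : ℤ), D z ^ 2 ∂haar3 ≤ ∫ z, D z ^ 2 ∂haar3 :=
      setIntegral_le_integral hsq (Eventually.of_forall fun z => sq_nonneg _)
    rw [h2] at h1
    rw [mul_comm]
    exact h1.trans (mul_le_mul_of_nonneg_left h4 h3.le)
  obtain ⟨n, hn⟩ := exists_nat_gt ((∫ z, D z ^ 2 ∂haar3) * 8 / c ^ 2 + 1)
  have hn0 : 1 ≤ n := by
    have h1 : (0 : ℝ) ≤ ∫ z, D z ^ 2 ∂haar3 := integral_nonneg fun z => sq_nonneg _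
    have h2 : (0 : ℝ) ≤ (∫ z, D z ^ 2 ∂haar3) * 8 / c ^ 2 := by positivity
    have h3 : (0 : ℝ) < n := by linarith
    exact_mod_cast h3
  have h1 := hs d hd c hc hlow n hn0
  have h2 := hsum n
  have h3 : (∫ z, D z ^ 2 ∂haar3) < c ^ 2 / 8 * (n - 1) := by
    have hc2 : 0 < c ^ 2 := by positivity
    have h4 : (∫ z, D z ^ 2 ∂haar3) * 8 / c ^ 2 < n - 1 := by linarith
    rw [div_lt_iff₀ hc2] at h4
    linarith
  linarith

end Q285.PD
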