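import Pool.Agent.Q74.PD.Stm7
import Pool.Agent.H499R2.NDStep2

/-! # Project PD, job Rte: the conditional densities converge in mean faster than any power -/

set_option autoImplicit false

namespace Q285.PD

open Finset Filter Topology
open Pool.Agent.H499R2.ND Pool.Agent.H320R2.PD Pool.Agent.Q74.PD

/-- copy of a lemma of helper237 -/
theorem valid_append (d a : ℤ) {n : ℕ} {u : List ℕ} (hu : u.length = n) (v : List ℕ) :
    (3 : ℤ) ^ n ∣ 2 ^ (u ++ v).sum * a - d * Wo (u ++ v) ↔ (3 : ℤ) ^ n ∣ 2 ^ u.sum * a - d * Wo u := by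
  have h1 : (2 : ℤ) ^ (u ++ v).sum * a - d * Wo (u ++ v) =
      2 ^ v.sum * (2 ^ u.sum * a - d * Wo u) - 3 ^ n * (d * Wo v) := by
    rw [Wo_append, List.sum_append, hu]
    push_cast
    ring
  rw [h1, dvd_sub_left (Dvd.intro _ rfl)]
  have h2 : IsCoprime ((3 : ℤ) ^ n) (2 ^ v.sum) := by
    refine IsCoprime.pow ?_
    exact ⟨1, -1, by norm_num⟩
  exact ⟨fun h => h2.dvd_of_dvd_mul_left h, fun h => Dvd.dvd.mul_left h _⟩

open Classical in
/-- copy of a lemma of helper237 -/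
theorem split (d : ℤ) (cap n m : ℕ) (a : ℤ) :
    (3 : ℝ) ^ n * ∑ w ∈ FW cap (n + m), (if (3 : ℤ) ^ n ∣ 2 ^ w.sum * a - d * Wo w then wwt w else 0) =
      Dc d cap n a * ∑ v ∈ FW cap m, wwt v := by
  rw [sum_FW_add, mul_sum]
  unfold Dc
  rw [sum_mul]
  refine sum_congr rfl fun u hu => ?_
  rw [mul_sum, mul_sum]
  refine sum_congr rfl fun v _ => ?_
  have h1 := valid_append d a ((mem_FW.1 hu).1) v
  by_cases h : (3 : ℤ) ^ n ∣ 2 ^ u.sum * a - d * Wo u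
  · rw [if_pos h, if_pos (h1.2 h), wwt_append]
    ring
  · rw [if_neg h, if_neg fun h2 => h (h1.1 h2)]
    ring

/-- the transfer to the offsets -/
theorem dev_T {d : ℤ} (hd : IsCoprime d 3) (cap T : ℕ) {m n : ℕ} (hnm : n ≤ m) :
    ∑ b ∈ range (3 ^ m), |(∑ w ∈ FWT cap m T, if (3 : ℤ) ^ m ∣ 2 ^ T * (b : ℤ) - d * Wo w then wwt w else 0) -
      (∑ w ∈ FWT cap m T, if (3 : ℤ) ^ n ∣ 2 ^ T * (b : ℤ) - d * Wo w then wwt w else 0) / 3 ^ (m - n)| ≤
      dev (FWT cap m T) wwt (fun w => (Wo w : ℤ)) m n := by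
  classical
  obtain ⟨p, q, hpq⟩ : IsCoprime d ((3 : ℤ) ^ m) := hd.pow_right
  obtain ⟨e, he⟩ : ∃ e : ℤ → ℤ, e = fun x => p * 2 ^ T * x := ⟨_, rfl⟩
  have hdc : ∀ j : ℕ, IsCoprime ((3 : ℤ) ^ j) d := fun j => hd.symm.pow_left
  have key : ∀ j, j ≤ m → ∀ (x : ℤ) (W : ℤ), ((3 : ℤ) ^ j ∣ 2 ^ T * x - d * W ↔ (3 : ℤ) ^ j ∣ W - e x) := by
    intro j hj x W
    have hdk : (3 : ℤ) ^ j ∣ 3 ^ m := pow_dvd_pow 3 hj
    have e1 : (2 ^ T * x - d * W) + d * (W - e x) = 3 ^ m * (q * (2 ^ T * x)) := by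
      rw [he]
      have h1 : p * d = 1 - q * 3 ^ m := by linarith
      calc (2 ^ T * x - d * W) + d * (W - p * 2 ^ T * x)
          = 2 ^ T * x - (p * d) * (2 ^ T * x) := by ring
        _ = _ := by rw [h1]; ring
    have h2 : (3 : ℤ) ^ j ∣ (2 ^ T * x - d * W) + d * (W - e x) := by
      rw [e1]
      exact hdk.mul_right _
    constructor
    · intro h
      apply (hdc j).dvd_of_dvd_mul_left
      have := dvd_sub h2 h
      rwa [add_sub_cancel_left] at this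
    · intro h
      have := dvd_sub h2 (h.mul_left d)
      rwa [add_sub_cancel_right] at this
  have hC : ∀ j, j ≤ m → ∀ x : ℤ, (∑ w ∈ FWT cap m T, if (3 : ℤ) ^ j ∣ 2 ^ T * x - d * Wo w then wwt w else 0) =
      cnt (FWT cap m T) wwt (fun w => (Wo w : ℤ)) j (e x) := by
    intro j hj x
    unfold cnt
    apply sum_congr rfl
    intro w hw
    by_cases h : (3 : ℤ) ^ j ∣ 2 ^ T * x - d * (Wo w : ℤ)
    · rw [if_pos h, if_pos ((key j hj x _).1 h)]
    · rw [if_neg h, if_neg (fun h' => h ((key j hj x _).2 h'))]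
  have hpc : IsCoprime (p * 2 ^ T) ((3 : ℤ) ^ m) := by
    apply IsCoprime.mul_left
    · exact ⟨d, q, by linarith⟩
    · exact (cop_two_pow T).pow_right
  obtain ⟨g, hg⟩ : ∃ g : ℤ → ℝ, g = fun c => |cnt (FWT cap m T) wwt (fun w => (Wo w : ℤ)) m c
        - cnt (FWT cap m T) wwt (fun w => (Wo w : ℤ)) n c / 3 ^ (m - n)| := ⟨_, rfl⟩
  have h1 : ∑ x ∈ (range (3 ^ m)).map Nat.castEmbedding, g (e x) ≤ 1 * ∑ c ∈ range (3 ^ m), g (c : ℤ) := by
    apply sum_periodic_le (g := g)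
    · intro r
      have h2 : (((range (3 ^ m)).map Nat.castEmbedding).filter fun x : ℤ => (3 : ℤ) ^ m ∣ e x - r).card ≤ 1 := by
        rw [card_le_one]
        intro x hx y hy
        rw [mem_filter, Finset.mem_map] at hx hy
        obtain ⟨⟨x', hx', rfl⟩, hx2⟩ := hx
        obtain ⟨⟨y', hy', rfl⟩, hy2⟩ := hy
        have h3 : (3 : ℤ) ^ m ∣ (p * 2 ^ T) * ((x' : ℤ) - y') := by
          have h4 := dvd_sub hx2 hy2
          rw [he] at h4
          have h5 : (fun x : ℤ => p * 2 ^ T * x) (Nat.castEmbedding x') - r - ((fun x : ℤ => p * 2 ^ T * x) (Nat.castEmbedding y') - r) =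
              (p * 2 ^ T) * ((x' : ℤ) - y') := by
            show p * 2 ^ T * (x' : ℤ) - r - (p * 2 ^ T * (y' : ℤ) - r) = _
            ring
          rw [h5] at h4
          exact h4
        have h6 : (3 : ℤ) ^ m ∣ (x' : ℤ) - y' := hpc.symm.dvd_of_dvd_mul_left h3
        have h7 : ((3 ^ m : ℕ) : ℤ) ∣ (y' : ℤ) - x' := by
          rw [← neg_sub, dvd_neg]
          exact_mod_cast h6
        have h8 : x' ≡ y' [MOD 3 ^ m] := Int.natCast_modEq_iff.1 (Int.modEq_iff_dvd.2 h7)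
        have h9 : x' = y' := Nat.ModEq.eq_of_lt_of_lt h8 (mem_range.1 hx') (mem_range.1 hy')
        rw [h9]
      exact_mod_cast h2
    · intro c
      rw [hg]
      exact abs_nonneg _
    · intro c c' hcc
      have h1 := cnt_congr (s := FWT cap m T) (wt := wwt) (fun w => (Wo w : ℤ)) m hcc
      have h2 := cnt_congr (s := FWT cap m T) (wt := wwt) (fun w => (Wo w : ℤ)) n
        ((pow_dvd_pow 3 hnm).trans hcc)
      rw [hg]
      show |_ - _| = |_ - _|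
      rw [h1, h2]
  rw [sum_map, one_mul] at h1
  refine le_trans (le_of_eq ?_) (h1.trans (le_of_eq ?_))
  · refine sum_congr rfl fun b _ => ?_
    rw [hC m le_rfl, hC n hnm, hg]
    rfl
  · unfold dev
    rw [hg]

open Classical in
theorem fib (d : ℤ) (cap m j : ℕ) (a : ℤ) : ∑ w ∈ FW cap m, (if (3 : ℤ) ^ j ∣ 2 ^ w.sum * a - d * Wo w then wwt w else 0) =
    ∑ T ∈ range (m * cap + 1), ∑ w ∈ FWT cap m T, (if (3 : ℤ) ^ j ∣ 2 ^ T * a - d * Wo w then wwt w else 0) := by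
  have hmaps : ∀ w ∈ FW cap m, w.sum ∈ range (m * cap + 1) := by
    intro w hw
    have := (sum_le_of_mem hw).2
    rw [mem_range]
    omega
  rw [← sum_fiberwise_of_maps_to hmaps]
  refine sum_congr rfl fun T _ => ?_
  unfold FWT
  refine sum_congr rfl fun w hw => ?_
  rw [(mem_filter.1 hw).2]

/-- the inequality for the words with letters up to `cap` -/
theorem step {d : ℤ} (hd : IsCoprime d 3) (cap : ℕ) {m n : ℕ} (hnm : n ≤ m) :
    ∑ b ∈ range (3 ^ m), |Dc d cap m b - Dc d cap n b * ∑ v ∈ FW cap (m - n), wwt v| ≤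
      3 ^ m * ∑ T ∈ range (m * cap + 1), dev (FWT cap m T) wwt (fun w => (Wo w : ℤ)) m n := by
  classical
  have h3 : (0 : ℝ) < 3 ^ m := by positivity
  have e1 : ∀ b : ℕ, Dc d cap m (b : ℤ) - Dc d cap n (b : ℤ) * ∑ v ∈ FW cap (m - n), wwt v = 3 ^ m * ∑ T ∈ range (m * cap + 1),
      ((∑ w ∈ FWT cap m T, if (3 : ℤ) ^ m ∣ 2 ^ T * (b : ℤ) - d * Wo w then wwt w else 0) -
      (∑ w ∈ FWT cap m T, if (3 : ℤ) ^ n ∣ 2 ^ T * (b : ℤ) - d * Wo w then wwt w else 0) / 3 ^ (m - n)) := by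
    intro b
    have h4 := split d cap n (m - n) (b : ℤ)
    rw [Nat.add_sub_cancel' hnm, fib] at h4
    rw [← h4]
    have h5 : Dc d cap m (b : ℤ) = 3 ^ m * ∑ w ∈ FW cap m, (if (3 : ℤ) ^ m ∣ 2 ^ w.sum * (b : ℤ) - d * Wo w then wwt w else 0) := by
      unfold Dc
      rw [mul_sum]
      refine sum_congr rfl fun w _ => ?_
      by_cases h : (3 : ℤ) ^ m ∣ 2 ^ w.sum * (b : ℤ) - d * Wo w
      · rw [if_pos h, if_pos h]
      · rw [if_neg h, if_neg h, mul_zero]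
    rw [h5, fib, sum_sub_distrib, mul_sub, ← sum_div]
    congr 1
    have h6 : (3 : ℝ) ^ m = 3 ^ n * 3 ^ (m - n) := by
      rw [← pow_add, Nat.add_sub_cancel' hnm]
    rw [h6]
    field_simp
  calc ∑ b ∈ range (3 ^ m), |Dc d cap m b - Dc d cap n b * ∑ v ∈ FW cap (m - n), wwt v|
      ≤ ∑ b ∈ range (3 ^ m), 3 ^ m * ∑ T ∈ range (m * cap + 1),
        |(∑ w ∈ FWT cap m T, if (3 : ℤ) ^ m ∣ 2 ^ T * (b : ℤ) - d * Wo w then wwt w else 0) -
        (∑ w ∈ FWT cap m T, if (3 : ℤ) ^ n ∣ 2 ^ T * (b : ℤ) - d * Wo w then wwt w else 0) / 3 ^ (m - n)| := by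
        refine sum_le_sum fun b _ => ?_
        rw [e1, abs_mul, abs_of_pos h3]
        exact mul_le_mul_of_nonneg_left (abs_sum_le_sum_abs _ _) h3.le
    _ = 3 ^ m * ∑ T ∈ range (m * cap + 1), ∑ b ∈ range (3 ^ m),
        |(∑ w ∈ FWT cap m T, if (3 : ℤ) ^ m ∣ 2 ^ T * (b : ℤ) - d * Wo w then wwt w else 0) -
        (∑ w ∈ FWT cap m T, if (3 : ℤ) ^ n ∣ 2 ^ T * (b : ℤ) - d * Wo w then wwt w else 0) / 3 ^ (m - n)| := by
        rw [← mul_sum, sum_comm]
    _ ≤ _ := mul_le_mul_of_nonneg_left (sum_le_sum fun T _ => dev_T hd cap T hnm) h3.le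

theorem Dc_tendsto (hD : S_Dlm) {d : ℤ} (hd : IsCoprime d 3) (n : ℕ) (a : ℤ) : Tendsto (fun cap : ℕ => Dc d cap n a) atTop (𝓝 (Dn d n a)) := by
  have h1 : Tendsto (fun cap : ℕ => (3 : ℝ) ^ n * n * (1 / 2) ^ cap) atTop (𝓝 (3 ^ n * n * 0)) :=
    (tendsto_pow_atTop_nhds_zero_of_lt_one (by norm_num) (by norm_num)).const_mul _
  have h2 : Tendsto (fun cap : ℕ => Dn d n a - (3 : ℝ) ^ n * n * (1 / 2) ^ cap) atTop (𝓝 (Dn d n a - 3 ^ n * n * 0)) := tendsto_const_nhds.sub h1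
  rw [mul_zero, sub_zero] at h2
  refine tendsto_of_tendsto_of_tendsto_of_le_of_le h2 tendsto_const_nhds ?_ ?_
  · intro cap
    have := ((hD d hd n).1 cap a).2.2.2
    show Dn d n a - (3 : ℝ) ^ n * n * (1 / 2) ^ cap ≤ Dc d cap n a
    linarith
  · intro cap
    exact ((hD d hd n).1 cap a).2.1

theorem rte (hM : S_Mix) (hD : S_Dlm) : S_Rte := by
  intro B
  obtain ⟨C, hC, h⟩ := hM B
  refine ⟨C, hC, fun d hd n m hn hnm => ?_⟩
  have hmass : Tendsto (fun cap : ℕ => ∑ v ∈ FW cap (m - n), wwt v) atTop (𝓝 1) := by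
    have h1 : Tendsto (fun cap : ℕ => (1 - (1 / 2 : ℝ) ^ cap) ^ (m - n)) atTop (𝓝 ((1 - 0) ^ (m - n))) :=
      (tendsto_const_nhds.sub (tendsto_pow_atTop_nhds_zero_of_lt_one (by norm_num) (by norm_num))).pow _
    rw [sub_zero, one_pow] at h1
    refine h1.congr fun cap => ?_
    rw [sum_wwt]
  have hlim : Tendsto (fun cap : ℕ => ∑ b ∈ range (3 ^ m), |Dc d cap m b - Dc d cap n b * ∑ v ∈ FW cap (m - n), wwt v|) atTop
      (𝓝 (∑ b ∈ range (3 ^ m), |Dn d m b - Dn d n b * 1|)) :=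
    tendsto_finsetSum _ fun b _ => ((Dc_tendsto hD hd m b).sub ((Dc_tendsto hD hd n b).mul hmass)).abs
  simp only [mul_one] at hlim
  refine le_of_tendsto hlim ?_
  filter_upwards [eventually_ge_atTop (3 * m)] with cap hcap
  refine (step hd cap hnm).trans ?_
  have h1 := h m n cap hn hnm hcap
  have h3 : (0 : ℝ) < 3 ^ m := by positivity
  rw [mul_comm]
  exact mul_le_mul_of_nonneg_right h1 h3.le

end Q285.PD
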